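import Pool.Agent.helper64.D2.SpecF

set_option autoImplicit false

open Filter Topology
open scoped commutatorElement

namespace Pool.Agent.helper64.D2

/-- The bump. -/
noncomputable def NR3_c (m x : ℝ) : ℝ := (1 + Real.cos (2 * Real.pi * (x - m))) / 2

theorem NR3_c_nonneg (m x : ℝ) : 0 ≤ NR3_c m x := by
  unfold NR3_c
  linarith [Real.neg_one_le_cos (2 * Real.pi * (x - m))]

theorem NR3_c_contDiff (m : ℝ) : ContDiff ℝ 2 (NR3_c m) := by
  unfold NR3_c
  exact ((contDiff_const.add ((contDiff_const.mul (contDiff_id.sub contDiff_const)).cos)).div_const 2)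

theorem NR3_c_periodic (m : ℝ) : Function.Periodic (NR3_c m) 1 := by
  intro x
  unfold NR3_c
  have h : 2 * Real.pi * (x + 1 - m) = 2 * Real.pi * (x - m) + 2 * Real.pi := by ring
  rw [h, Real.cos_add_two_pi]

theorem NR3_c_le (m g x : ℝ) (hg : 0 ≤ g) (h1 : g ≤ m - x) (h2 : m - x ≤ 1 - g) :
    NR3_c m x ≤ (1 + Real.cos (2 * Real.pi * g)) / 2 := by
  have hpi := Real.pi_pos
  have key : Real.cos (2 * Real.pi * (x - m)) ≤ Real.cos (2 * Real.pi * g) := by
    have h3 : Real.cos (2 * Real.pi * (x - m)) = Real.cos (2 * Real.pi * (m - x)) := by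
      rw [← Real.cos_neg]
      congr 1
      ring
    rw [h3]
    rcases le_total (m - x) (1 / 2) with h | h
    · apply Real.cos_le_cos_of_nonneg_of_le_pi
      · positivity
      · nlinarith
      · nlinarith
    · have h4 : Real.cos (2 * Real.pi * (m - x)) = Real.cos (2 * Real.pi * (1 - (m - x))) := by
        have h5 : 2 * Real.pi * (1 - (m - x)) = 2 * Real.pi - 2 * Real.pi * (m - x) := by ring
        rw [h5, Real.cos_two_pi_sub]
      rw [h4]
      apply Real.cos_le_cos_of_nonneg_of_le_pi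
      · positivity
      · nlinarith
      · nlinarith
  unfold NR3_c
  linarith

theorem NR3_c_ge (m g x : ℝ) (hg : g ≤ 1 / 2) (h1 : m - g / 2 ≤ x) (h2 : x ≤ m + g / 2) :
    (1 + Real.cos (Real.pi * g)) / 2 ≤ NR3_c m x := by
  have hpi := Real.pi_pos
  have key : Real.cos (Real.pi * g) ≤ Real.cos (2 * Real.pi * (x - m)) := by
    have h3 : Real.cos (2 * Real.pi * (x - m)) = Real.cos (2 * Real.pi * |x - m|) := by
      rcases abs_cases (x - m) with ⟨h, _⟩ | ⟨h, _⟩
      · rw [h]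
      · rw [h, ← Real.cos_neg]
        congr 1
        ring
    rw [h3]
    have h4 : |x - m| ≤ g / 2 := abs_le.2 ⟨by linarith, by linarith⟩
    have h5 : 0 ≤ |x - m| := abs_nonneg _
    apply Real.cos_le_cos_of_nonneg_of_le_pi
    · positivity
    · nlinarith
    · nlinarith
  unfold NR3_c
  linarith

theorem NR3_int_le (f : ℝ → ℝ) (a b C : ℝ) (hf : Continuous f) (hab : a ≤ b) (h : ∀ x ∈ Set.Icc a b, f x ≤ C) :
    ∫ x in a..b, f x ≤ C * (b - a) := by
  have h1 : ∫ x in a..b, f x ≤ ∫ _ in a..b, C :=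
    intervalIntegral.integral_mono_on hab (hf.intervalIntegrable _ _) (by simp) h
  rw [intervalIntegral.integral_const, smul_eq_mul] at h1
  linarith

theorem NR3_int_ge (f : ℝ → ℝ) (a b C : ℝ) (hf : Continuous f) (hab : a ≤ b) (h : ∀ x ∈ Set.Icc a b, C ≤ f x) :
    C * (b - a) ≤ ∫ x in a..b, f x := by
  have h1 : ∫ _ in a..b, C ≤ ∫ x in a..b, f x :=
    intervalIntegral.integral_mono_on hab (by simp) (hf.intervalIntegrable _ _) h
  rw [intervalIntegral.integral_const, smul_eq_mul] at h1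
  linarith

theorem NR3_I (α β : ℝ) (n : ℕ) (h1 : α < β) (h2 : β < α + 1) :
    (α + 1 - β) / 2 * ((1 + Real.cos (Real.pi * ((α + 1 - β) / 2))) / 2) ^ n ≤
      ∫ x in α..(α + 1), NR3_c ((β + α + 1) / 2) x ^ n := by
  have hpi := Real.pi_pos
  set m := (β + α + 1) / 2 with hm
  set g := (α + 1 - β) / 2 with hg
  have hg0 : 0 < g := by rw [hg]; linarith
  have hg1 : g ≤ 1 / 2 := by rw [hg]; linarith
  have hcont : Continuous (fun x => NR3_c m x ^ n) := (NR3_c_contDiff m).continuous.pow n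
  have hs : 0 ≤ (1 + Real.cos (Real.pi * g)) / 2 := by linarith [Real.neg_one_le_cos (Real.pi * g)]
  have e1 : ∫ x in α..(α + 1), NR3_c m x ^ n = (∫ x in α..(m - g / 2), NR3_c m x ^ n) +
      (∫ x in (m - g / 2)..(m + g / 2), NR3_c m x ^ n) + ∫ x in (m + g / 2)..(α + 1), NR3_c m x ^ n := by
    rw [intervalIntegral.integral_add_adjacent_intervals (hcont.intervalIntegrable _ _) (hcont.intervalIntegrable _ _),
      intervalIntegral.integral_add_adjacent_intervals (hcont.intervalIntegrable _ _) (hcont.intervalIntegrable _ _)]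
  have e2 : 0 ≤ ∫ x in α..(m - g / 2), NR3_c m x ^ n :=
    intervalIntegral.integral_nonneg (by rw [hm, hg]; linarith) (fun x _ => pow_nonneg (NR3_c_nonneg m x) n)
  have e3 : 0 ≤ ∫ x in (m + g / 2)..(α + 1), NR3_c m x ^ n :=
    intervalIntegral.integral_nonneg (by rw [hm, hg]; linarith) (fun x _ => pow_nonneg (NR3_c_nonneg m x) n)
  have e4 := NR3_int_ge (fun x => NR3_c m x ^ n) (m - g / 2) (m + g / 2) (((1 + Real.cos (Real.pi * g)) / 2) ^ n) hcont
    (by linarith) (fun x hx => pow_le_pow_left₀ hs (NR3_c_ge m g x hg1 hx.1 hx.2) n)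
  have e5 : ((1 + Real.cos (Real.pi * g)) / 2) ^ n * (m + g / 2 - (m - g / 2)) = g * ((1 + Real.cos (Real.pi * g)) / 2) ^ n := by ring
  rw [e5] at e4
  rw [e1]
  linarith

theorem NR3_lim (α β : ℝ) (h1 : α < β) (h2 : β < α + 1) (ε : ℝ) (hε : 0 < ε) :
    ∃ n : ℕ, ((1 + Real.cos (2 * Real.pi * ((α + 1 - β) / 2))) / 2) ^ n ≤
      ε * ((α + 1 - β) / 2 * ((1 + Real.cos (Real.pi * ((α + 1 - β) / 2))) / 2) ^ n) := by
  have hpi := Real.pi_pos
  set g := (α + 1 - β) / 2 with hg
  have hg0 : 0 < g := by rw [hg]; linarith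
  have hg1 : g ≤ 1 / 2 := by rw [hg]; linarith
  set s := (1 + Real.cos (2 * Real.pi * g)) / 2 with hs
  set s' := (1 + Real.cos (Real.pi * g)) / 2 with hs'
  have hs0 : 0 ≤ s := by rw [hs]; linarith [Real.neg_one_le_cos (2 * Real.pi * g)]
  have hlt : s < s' := by
    have : Real.cos (2 * Real.pi * g) < Real.cos (Real.pi * g) := by
      apply Real.cos_lt_cos_of_nonneg_of_le_pi
      · positivity
      · nlinarith
      · nlinarith
    rw [hs, hs']
    linarith
  have hs'0 : 0 < s' := lt_of_le_of_lt hs0 hlt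
  have hq : s / s' < 1 := (div_lt_one hs'0).2 hlt
  obtain ⟨n, hn⟩ := exists_pow_lt_of_lt_one (mul_pos hε hg0) hq
  refine ⟨n, ?_⟩
  rw [div_pow, div_lt_iff₀ (pow_pos hs'0 n)] at hn
  calc s ^ n ≤ ε * g * s' ^ n := hn.le
    _ = ε * (g * s' ^ n) := by ring

theorem NR3 (hMKL : MKL_stmt) : NR3_stmt := by
  intro α β x0 η h1 h2 hη
  have hpi := Real.pi_pos
  obtain ⟨n, hn⟩ := NR3_lim α β h1 h2 (η / 4) (by positivity)
  have hI := NR3_I α β n h1 h2
  set m := (β + α + 1) / 2 with hm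
  set g := (α + 1 - β) / 2 with hg
  have hg0 : 0 < g := by rw [hg]; linarith
  have hg1 : g ≤ 1 / 2 := by rw [hg]; linarith
  set s := (1 + Real.cos (2 * Real.pi * g)) / 2 with hs
  set s' := (1 + Real.cos (Real.pi * g)) / 2 with hs'
  have hs0 : 0 ≤ s := by rw [hs]; linarith [Real.neg_one_le_cos (2 * Real.pi * g)]
  have hs'0 : 0 < s' := by
    have : 0 ≤ Real.cos (Real.pi * g) := Real.cos_nonneg_of_neg_pi_div_two_le_of_le (by nlinarith) (by nlinarith)
    rw [hs']
    linarith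
  set I := ∫ x in α..(α + 1), NR3_c m x ^ n with hIdef
  have hI0 : 0 < I := lt_of_lt_of_le (mul_pos hg0 (pow_pos hs'0 n)) hI
  set κ := min (η / 4) (1 / 2) with hκ
  have hκ0 : 0 < κ := by rw [hκ]; exact lt_min (by positivity) (by norm_num)
  have hκ1 : κ ≤ η / 4 := min_le_left _ _
  have hκ2 : κ ≤ 1 / 2 := min_le_right _ _
  have hcontr : Continuous (fun x => NR3_c m x ^ n) := (NR3_c_contDiff m).continuous.pow n
  let ρ : ℝ → ℝ := fun x => κ + (1 - κ) / I * NR3_c m x ^ n
  have hρC : ContDiff ℝ 2 ρ := contDiff_const.add (contDiff_const.mul ((NR3_c_contDiff m).pow n))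
  have hρc : Continuous ρ := hρC.continuous
  have hρper : Function.Periodic ρ 1 := by
    intro x
    have := NR3_c_periodic m x
    change κ + (1 - κ) / I * NR3_c m (x + 1) ^ n = κ + (1 - κ) / I * NR3_c m x ^ n
    rw [this]
  have hq0 : 0 ≤ (1 - κ) / I := div_nonneg (by linarith) hI0.le
  have hρpos : ∀ x, 0 < ρ x := by
    intro x
    have : 0 ≤ (1 - κ) / I * NR3_c m x ^ n := mul_nonneg hq0 (pow_nonneg (NR3_c_nonneg m x) n)
    change 0 < κ + (1 - κ) / I * NR3_c m x ^ n
    linarith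
  let F : ℝ → ℝ := fun x => x0 + ∫ t in α..x, ρ t
  have hFd : ∀ x, HasDerivAt F (ρ x) x := by
    intro x
    have := (hρc.integral_hasStrictDerivAt α x).hasDerivAt
    exact this.const_add x0
  have hFderiv : deriv F = ρ := by
    funext x
    exact (hFd x).deriv
  have hFC : ContDiff ℝ 2 F := by
    have h3 : ContDiff ℝ (1 + 1) F := by
      rw [contDiff_succ_iff_deriv]
      refine ⟨fun x => (hFd x).differentiableAt, by simp, ?_⟩
      rw [hFderiv]
      exact hρC.of_le (by norm_num)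
    have h4 : ((1 : WithTop ℕ∞) + 1) = 2 := by norm_num
    rw [h4] at h3
    exact h3
  have hint : ∀ a b : ℝ, ∫ x in a..b, ρ x = κ * (b - a) + (1 - κ) / I * ∫ x in a..b, NR3_c m x ^ n := by
    intro a b
    have g1 : IntervalIntegrable (fun _ : ℝ => κ) MeasureTheory.volume a b := continuous_const.intervalIntegrable _ _
    have g2 : IntervalIntegrable (fun x : ℝ => (1 - κ) / I * NR3_c m x ^ n) MeasureTheory.volume a b :=
      (continuous_const.mul hcontr).intervalIntegrable _ _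
    have g3 := intervalIntegral.integral_add g1 g2
    rw [intervalIntegral.integral_const, intervalIntegral.integral_const_mul, smul_eq_mul] at g3
    have g4 : (b - a) * κ = κ * (b - a) := by ring
    rw [g4] at g3
    exact g3
  have htot : ∫ x in α..(α + 1), ρ x = 1 := by
    rw [hint, ← hIdef]
    field_simp
    ring
  have hF1 : ∀ x, F (x + 1) = F x + 1 := by
    intro x
    have h3 : ∫ t in x..(x + 1), ρ t = ∫ t in α..(α + 1), ρ t := hρper.intervalIntegral_add_eq x α
    change x0 + ∫ t in α..(x + 1), ρ t = x0 + (∫ t in α..x, ρ t) + 1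
    rw [← intervalIntegral.integral_add_adjacent_intervals (hρc.intervalIntegrable α x) (hρc.intervalIntegrable x (x + 1)), h3, htot]
    ring
  obtain ⟨h, hG, hh⟩ := hMKL F hFC hF1 (by intro x; rw [hFderiv]; exact hρpos x)
  refine ⟨h, hG, ?_⟩
  intro x hx
  rw [hh x]
  have h5 : 0 ≤ ∫ t in α..x, ρ t := intervalIntegral.integral_nonneg hx.1 (fun t _ => (hρpos t).le)
  have h6 : ∫ t in α..x, NR3_c m t ^ n ≤ s ^ n * (x - α) := by
    apply NR3_int_le _ _ _ _ hcontr hx.1
    intro t ht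
    apply pow_le_pow_left₀ (NR3_c_nonneg m t)
    apply NR3_c_le m g t hg0.le
    · rw [hm, hg]
      linarith [ht.2, hx.2]
    · rw [hm, hg]
      linarith [ht.1]
  have h7 : s ^ n * (x - α) ≤ s ^ n := by
    have : 0 ≤ s ^ n := pow_nonneg hs0 n
    nlinarith [hx.1, hx.2]
  have h8 : (1 - κ) / I * ∫ t in α..x, NR3_c m t ^ n ≤ η / 4 := by
    have h9 : ∫ t in α..x, NR3_c m t ^ n ≤ η / 4 * I :=
      calc ∫ t in α..x, NR3_c m t ^ n ≤ s ^ n := h6.trans h7
        _ ≤ η / 4 * (g * s' ^ n) := hn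
        _ ≤ η / 4 * I := mul_le_mul_of_nonneg_left hI (by positivity)
    have h10 : 0 ≤ η / 4 * I := by positivity
    calc (1 - κ) / I * ∫ t in α..x, NR3_c m t ^ n ≤ (1 - κ) / I * (η / 4 * I) := mul_le_mul_of_nonneg_left h9 hq0
      _ = (1 - κ) * (η / 4) := by field_simp
      _ ≤ η / 4 := by nlinarith
  have h11 : ∫ t in α..x, ρ t ≤ η / 2 := by
    rw [hint]
    have : κ * (x - α) ≤ κ := by nlinarith [hx.1, hx.2]
    linarith
  change x0 + ∫ t in α..x, ρ t ∈ Set.Icc (x0 - η) (x0 + η)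
  exact ⟨by linarith, by linarith⟩

end Pool.Agent.helper64.D2
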