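import Pool.Agent.helper64.D2.SpecC

set_option autoImplicit false

open Filter Topology
open scoped commutatorElement

namespace Pool.Agent.helper64.D2

theorem PRD_mono (g : DD) (a b : ℝ) (h : Sz g a) (hab : a ≤ b) : Sz g b := fun x => (h x).trans hab

theorem PRD_one : Sz 1 0 := by
  intro x
  have h1 : (ev 1) = fun x : ℝ => x := by
    funext y
    exact ev_one y
  have h2 : deriv (ev 1) = fun _ : ℝ => (1 : ℝ) := by
    funext y
    rw [h1]
    exact deriv_id y
  have h3 : d2 (ev 1) x = 0 := by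
    unfold d2
    rw [h2]
    exact deriv_const x 1
  rw [h3, abs_zero]

theorem PRD_sum_nonneg (l : List (DD × ℝ)) (h : ∀ z ∈ l, Sz z.1 z.2 ∧ 0 ≤ z.2) : 0 ≤ (l.map Prod.snd).sum := by
  apply List.sum_nonneg
  intro x hx
  obtain ⟨z, hz, rfl⟩ := List.mem_map.1 hx
  exact (h z hz).2

theorem PRD (hSZC : SZC_stmt) : PRD_stmt := by
  intro l
  induction l with
  | nil =>
    intro _ _
    simp only [List.map_nil, List.prod_nil, List.sum_nil, mul_zero]
    exact PRD_one
  | cons z l ih =>
    intro h hs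
    have hl : ∀ w ∈ l, Sz w.1 w.2 ∧ 0 ≤ w.2 := fun w hw => h w (List.mem_cons_of_mem _ hw)
    have hz := h z List.mem_cons_self
    have hS := PRD_sum_nonneg l hl
    rw [List.map_cons, List.sum_cons] at hs
    rw [List.map_cons, List.prod_cons, List.map_cons, List.sum_cons]
    have h1 := ih hl (by linarith [hz.2])
    have h2 := hSZC.2.2.1 z.1 ((l.map Prod.fst).prod) z.2 (2 * (l.map Prod.snd).sum) hz.1 h1 (by linarith) (by linarith [hz.2])
    refine PRD_mono _ _ _ h2 ?_
    nlinarith [hz.2, hS]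

end Pool.Agent.helper64.D2
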